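import Pool.Agent.Helper38.RT.Final
import Pool.Agent.Helper10.RT.Compile
import Pool.Agent.Helper10.RT.Enc
import Pool.Agent.Helper51.RT.Words

/-!
# MP_4589a7_lc: string matching with the reversed pattern is in REALTIME

The language `L = {v # u : u = u₁ v⁻¹ u₂}` is recognised by a deterministic multitape Turing machine
in realtime (full positive answer).

The pattern is pushed on a stack, so that after `#` it is available as a queue which starts with its
first letter. The machine then runs the string matching of Knuth, Morris and Pratt on
stacks: it first computes the periods of the prefixes of the pattern (as a log, one mark for each
prefix and one tick for each unit by which the least period grows), in amortised linear time, while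
the text symbols which arrive are stored in a queue; then it reads the text from the queue. A shift
of the pattern by the period `per q` costs `O(per q)` moves. With `100` moves for each input symbol a
potential argument shows that at each time `n` at which the machine is late, (current match length) +
(number of unread symbols) is smaller than the length of the pattern, so that no occurrence is hidden
in the unread part and the current answer `no` is correct. Finally the machine with `100` stack moves
per symbol is turned into a realtime Turing machine by packing blocks of letters.
-/

set_option autoImplicit false

namespace Pool.Agent.Results.MP_4589a7_lc.ReversedMatchingRealtime

open Pool.Agent.Helper38.RT

/-- **Reversed string matching is in REALTIME**: some deterministic multitape Turing machine which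
reads one input symbol per step accepts, after its `|w|` steps, exactly the words
`w = v # u` over `{0,1,#}` such that the reversal of `v` is a factor of `u`. -/
theorem result : REALTIME Lang :=
  main Pool.Agent.Helper51.RT.words_thm Pool.Agent.Helper10.RT.enc_thm
    Pool.Agent.Helper10.RT.compile_thm

end Pool.Agent.Results.MP_4589a7_lc.ReversedMatchingRealtime
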